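import Mathlib
import Pool.Agent.Helper84.HRT.Fin

/-!
# MP_2370de_an: Weyl translates at the roots of unity can be linearly dependent
-/

open MeasureTheory Complex

namespace Pool.Agent.Results.MP_2370de_an.RootsOfUnity

/-- The Weyl operator `U_α f (z) = exp(-|α|²/2 - conj α * z) f(z + α)`. -/
noncomputable def U (α : ℂ) (f : ℂ → ℂ) : ℂ → ℂ :=
  fun z => Complex.exp (-((‖α‖ ^ 2 / 2 : ℝ) : ℂ) - (starRingEnd ℂ) α * z) * f (z + α)

/-- Membership in the Fock space `F²`: entire, and `∫ |f|² e^{-|z|²} dA < ∞`. -/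
def InFock (f : ℂ → ℂ) : Prop :=
  Differentiable ℂ f ∧ Integrable (fun z : ℂ => ‖f z‖ ^ 2 * Real.exp (-‖z‖ ^ 2)) volume

/-- There are a positive integer `d`, a nonzero `f` in the Fock space and complex numbers
`c_0, ..., c_{d-1}`, not all zero, with `∑ c_k U_{λ_k} f = 0`, `λ_k = e^{2πik/d}`. -/
theorem result : ∃ d : ℕ, 0 < d ∧ ∃ f : ℂ → ℂ, InFock f ∧ f ≠ 0 ∧ ∃ c : Fin d → ℂ, c ≠ 0 ∧
    ∑ k : Fin d, c k • U (Complex.exp (2 * Real.pi * Complex.I * (k : ℕ) / d)) f = 0 := by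
  obtain ⟨N, hN, c, ⟨k, hk, hck⟩, f, h1, h2, h3, h4⟩ := Pool.Agent.Helper84.HRT.hrt_fails
  refine ⟨N, hN, f, ⟨h1, h3⟩, h2, fun j => c j, fun h => hck (congrFun h ⟨k, hk⟩), ?_⟩
  funext z
  have h5 := h4 z
  rw [Finset.sum_range] at h5
  simp only [Finset.sum_apply, Pi.smul_apply, smul_eq_mul, Pi.zero_apply]
  exact h5

end Pool.Agent.Results.MP_2370de_an.RootsOfUnity
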